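import Pool.Agent.Helper12.GM.LibF

/-! # Module CYC (MP_ab9fec_gt): the 3-cycle identity -/

open scoped ENNReal UpperHalfPlane MatrixGroups Topology
open UpperHalfPlane Real Filter

namespace Pool.Agent.Helper12.GM

/-- equal up to sign -/
def cyc_E (A B : SL(2, ℝ)) : Prop := A = B ∨ A = -B

theorem cyc_E_lamb {A B : SL(2, ℝ)} (h : cyc_E A B) : lamb A = lamb B := by
  rcases h with h | h
  · rw [h]
  · have h1 : A.1.trace = -B.1.trace := by
      rw [h, Matrix.SpecialLinearGroup.coe_neg, Matrix.trace_neg]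
    unfold lamb
    rw [h1, abs_neg, neg_sq]

theorem cyc_E_symm {A B : SL(2, ℝ)} (h : cyc_E A B) : cyc_E B A := by
  rcases h with h | h
  · exact Or.inl h.symm
  · right; rw [h, neg_neg]

theorem cyc_E_trans {A B C : SL(2, ℝ)} (h : cyc_E A B) (h' : cyc_E B C) : cyc_E A C := by
  rcases h with h | h <;> rcases h' with h' | h' <;> rw [h, h']
  · exact Or.inl rfl
  · exact Or.inr rfl
  · exact Or.inr rfl
  · left; rw [neg_neg]

theorem cyc_E_mul {A B A' B' : SL(2, ℝ)} (h : cyc_E A B) (h' : cyc_E A' B') :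
    cyc_E (A * A') (B * B') := by
  rcases h with h | h <;> rcases h' with h' | h' <;> rw [h, h']
  · exact Or.inl rfl
  · right; rw [mul_neg]
  · right; rw [neg_mul]
  · left; rw [neg_mul_neg]

theorem cyc_E_pow {A B : SL(2, ℝ)} (h : cyc_E A B) (n : ℕ) : cyc_E (A ^ n) (B ^ n) := by
  induction n with
  | zero => left; rw [pow_zero, pow_zero]
  | succ n ih => rw [pow_succ, pow_succ]; exact cyc_E_mul ih h

variable {Γ : Type} [Group Γ]

theorem cyc_pm (X : Fuchs Γ) (a : Γ) : cyc_E (X.M a) (pm X a) := by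
  unfold pm
  split_ifs
  · exact Or.inl rfl
  · right; rw [neg_neg]

theorem cyc_pm_pos (X : Fuchs Γ) {Θ : ℝ} {a : Γ} (ha : a ∈ Pos X Θ) :
    ∀ i j, 0 < (pm X a).1 i j := by
  obtain ⟨p, q, r, s, hp, hq, hr, hs, -, h⟩ := ha
  have key : (pm X a).1 = !![p, q; r, s] := by
    unfold pm
    rcases h with h | h
    · have h0 : 0 < (X.M a).1 0 0 := by rw [h]; simpa using hp
      rw [if_pos h0, h]
    · have h0 : ¬ 0 < (X.M a).1 0 0 := by
        rw [h]
        simp only [Matrix.neg_apply, Matrix.of_apply, Matrix.cons_val', Matrix.cons_val_zero]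
        linarith
      rw [if_neg h0, Matrix.SpecialLinearGroup.coe_neg, h, neg_neg]
  intro i j
  rw [key]
  fin_cases i <;> fin_cases j <;> simpa

theorem cyc_word (X : Fuchs Γ) (a b c : Γ) (n : ℕ) :
    lamb (X.M (a ^ n * b ^ n * c ^ n)) = lamb (pm X a ^ n * pm X b ^ n * pm X c ^ n) := by
  apply cyc_E_lamb
  have h1 : ∀ g : Γ, cyc_E (X.M (g ^ n)) (pm X g ^ n) := fun g =>
    cyc_E_trans (X.M_pow g n) (cyc_E_pow (cyc_pm X g) n)
  exact cyc_E_trans (X.mul' _ _) (cyc_E_mul (cyc_E_trans (X.mul' _ _)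
    (cyc_E_mul (h1 a) (h1 b))) (h1 c))

theorem cyc_lamb_pos (A : SL(2, ℝ)) (h : ∀ i j, 0 < A.1 i j) : 0 < lamb A := by
  unfold lamb
  have h1 : 0 < A.1.trace := by
    rw [Matrix.trace_fin_two]
    exact add_pos (h 0 0) (h 1 1)
  rw [abs_of_pos h1]
  have := Real.sqrt_nonneg (A.1.trace ^ 2 - 4)
  linarith

theorem st_CYC (hEIG : ST_EIG3) (hRHO : ST_RHO) (hTRC : ST_TRC) (hMULT : ST_MULT) (hCMP : ST_CMP)
    (hPF : ST_PF) (hFIX : ST_FIX) (hSEMI : ST_SEMI) : ST_CYC := by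
  intro Γ _ X Q μ K κ κ₂ Θ hD hu a ha b hb c hc ρa ρb ρc va wa vb wb vc wc pa pb pc
  have hΘ := hD.Θ0
  have hpow : ∀ g ∈ Pos X.toFuchs Θ, ∀ n : ℕ, 1 ≤ n → g ^ n ∈ Pos X.toFuchs Θ :=
    fun g hg n hn => (hFIX X Θ hΘ g hg).2.2.2 n hn
  have hmul := (hSEMI X Θ hΘ).1
  have hM := fun g hg h hh => (hMULT X Q μ K κ κ₂ Θ hD g hg).1 h hh
  -- the word
  have hword : ∀ n : ℕ, 1 ≤ n → a ^ n * b ^ n * c ^ n ∈ Pos X.toFuchs Θ := fun n hn =>
    hmul _ (hmul _ (hpow a ha n hn) _ (hpow b hb n hn)) _ (hpow c hc n hn)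
  set Bk : ℕ → ℕ → Bnd X.toFuchs κ → Bnd X.toFuchs κ → ℝ :=
    fun n m => kr X.toFuchs μ κ ((a ^ n * b ^ n * c ^ n) ^ m) with hBk
  set Ek : ℕ → ℕ → Bnd X.toFuchs κ → Bnd X.toFuchs κ → ℝ :=
    fun n m => kr X.toFuchs μ κ ((a ^ n * b ^ n) ^ m) with hEk
  have hP : ∀ n, 1 ≤ n → ∃ ρ v w, PFD (Bk n) ρ v w := by
    intro n hn
    apply hPF
    · simp only [hBk, pow_one]
      exact hCMP X Q μ K κ κ₂ Θ hD _ (hword n hn)
    · intro m m' hm hm' x z
      simp only [hBk, pow_add]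
      exact hM _ (hpow _ (hword n hn) m hm) _ (hpow _ (hword n hn) m' hm') x z
  have hr : ∀ n, 1 ≤ n → ∀ ρ v w, PFD (Bk n) ρ v w →
      ρ = ((lamb (pm X.toFuchs a ^ n * pm X.toFuchs b ^ n * pm X.toFuchs c ^ n))⁻¹) ^ 2 := by
    intro n hn ρ v w h
    rw [← cyc_word]
    exact hRHO X Q μ K κ κ₂ Θ hD hu _ (hword n hn) ρ v w h
  set r : ℕ → ℝ := fun n =>
    ((lamb (pm X.toFuchs a ^ n * pm X.toFuchs b ^ n * pm X.toFuchs c ^ n))⁻¹) ^ 2 with hrdef
  have hP' : ∀ n, 1 ≤ n → ∃ v w, PFD (Bk n) (r n) v w := by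
    intro n hn
    obtain ⟨ρ, v, w, h⟩ := hP n hn
    refine ⟨v, w, ?_⟩
    have := hr n hn ρ v w h
    rw [hrdef]
    simp only
    rw [← this]
    exact h
  have hlim := hEIG (Bnd X.toFuchs κ) _ _ _ ρa ρb ρc va wa vb wb vc wc pa pb pc r Bk Ek
    (by
      intro n hn x z
      simp only [hEk, pow_one]
      exact hM _ (hpow a ha n hn) _ (hpow b hb n hn) x z)
    (by
      intro n hn x z
      simp only [hEk, hBk, pow_one]
      exact hM _ (hmul _ (hpow a ha n hn) _ (hpow b hb n hn)) _ (hpow c hc n hn) x z)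
    (by
      intro n hn m hm x z
      simp only [hBk, pow_one]
      rw [pow_succ']
      exact hM _ (hword n hn) _ (hpow _ (hword n hn) m hm) x z)
    hP'
  -- the eigenvalues of the three elements
  have ea : ρa = ((lamb (pm X.toFuchs a))⁻¹) ^ 2 := by
    rw [← cyc_E_lamb (cyc_pm X.toFuchs a)]
    exact hRHO X Q μ K κ κ₂ Θ hD hu a ha ρa va wa pa
  have eb : ρb = ((lamb (pm X.toFuchs b))⁻¹) ^ 2 := by
    rw [← cyc_E_lamb (cyc_pm X.toFuchs b)]
    exact hRHO X Q μ K κ κ₂ Θ hD hu b hb ρb vb wb pb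
  have ec : ρc = ((lamb (pm X.toFuchs c))⁻¹) ^ 2 := by
    rw [← cyc_E_lamb (cyc_pm X.toFuchs c)]
    exact hRHO X Q μ K κ κ₂ Θ hD hu c hc ρc vc wc pc
  have posa := cyc_pm_pos X.toFuchs ha
  have posb := cyc_pm_pos X.toFuchs hb
  have posc := cyc_pm_pos X.toFuchs hc
  have la := cyc_lamb_pos _ posa
  have lb := cyc_lamb_pos _ posb
  have lc := cyc_lamb_pos _ posc
  have htrc := hTRC _ _ _ posa posb posc
  obtain ⟨xa, ya, -, -⟩ := hFIX X Θ hΘ a ha
  obtain ⟨xb, yb, -, -⟩ := hFIX X Θ hΘ b hb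
  obtain ⟨xc, yc, -, -⟩ := hFIX X Θ hΘ c hc
  unfold xiG at *
  unfold etG at *
  set N : ℝ := (xi (pm X.toFuchs b) - et (pm X.toFuchs a)) *
    (xi (pm X.toFuchs c) - et (pm X.toFuchs b)) *
    (xi (pm X.toFuchs a) - et (pm X.toFuchs c)) with hN
  set D : ℝ := (xi (pm X.toFuchs a) - et (pm X.toFuchs a)) *
    (xi (pm X.toFuchs b) - et (pm X.toFuchs b)) *
    (xi (pm X.toFuchs c) - et (pm X.toFuchs c)) with hDd
  have hN0 : 0 < N := by
    rw [hN]
    exact mul_pos (mul_pos (by linarith) (by linarith)) (by linarith)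
  have hD0 : 0 < D := by
    rw [hDd]
    exact mul_pos (mul_pos (by linarith) (by linarith)) (by linarith)
  have hND : N / D ≠ 0 := (div_pos hN0 hD0).ne'
  have hlim2 := ((htrc.inv₀ hND).pow 2)
  have heq : (fun n => r n / (ρa * ρb * ρc) ^ n) = fun n =>
      ((lamb (pm X.toFuchs a ^ n * pm X.toFuchs b ^ n * pm X.toFuchs c ^ n) /
        (lamb (pm X.toFuchs a) * lamb (pm X.toFuchs b) * lamb (pm X.toFuchs c)) ^ n)⁻¹) ^ 2 := by
    funext n
    rw [hrdef, ea, eb, ec]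
    simp only
    rw [← mul_pow, ← mul_pow, ← mul_inv, ← mul_inv, ← pow_mul, mul_comm 2 n, pow_mul, ← div_pow,
      inv_pow, inv_div, div_inv_eq_mul, mul_comm, ← div_eq_mul_inv]
  rw [heq] at hlim
  have huniq := tendsto_nhds_unique hlim hlim2
  rw [huniq, inv_div, div_pow]
  field_simp

end Pool.Agent.Helper12.GM
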