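import Pool.Agent.Helper12.GM.LibF

/-! # Module DOM (MP_ab9fec_gt): the choice of the constants of the wall -/

open scoped ENNReal UpperHalfPlane MatrixGroups Topology
open UpperHalfPlane Real Filter

namespace Pool.Agent.Helper12.GM

theorem st_DOM (hNOJ : ST_NOJ) (hPOSG : ST_POSG) (hCHN : ST_CHN) (hDICH : ST_DICH) (hFAR : ST_FAR)
    (hALN : ST_ALN) : ST_DOM := by
  intro Γ _ X Q μ K hL hW
  obtain ⟨R₀, hR₀⟩ := X.cocpt
  set R : ℝ := max R₀ 0 with hR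
  have hR1 : 0 ≤ R := le_max_right _ _
  have hR2 : ∀ z : ℍ, ∃ g, dist z (X.M g • (I : ℍ)) ≤ R := fun z => by
    obtain ⟨g, hg⟩ := hR₀ z
    exact ⟨g, hg.trans (le_max_left _ _)⟩
  set κ : ℝ := max (Real.cosh K) (2 * Real.sinh (R / 2) * Real.exp (R / 2)) with hκ
  have hκ1 : Real.cosh K ≤ κ := le_max_left _ _
  have hκ2 : 2 * Real.sinh (R / 2) * Real.exp (R / 2) ≤ κ := le_max_right _ _
  have hκ3 : 1 ≤ κ := (Real.one_le_cosh K).trans hκ1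
  have hκ0 : 0 ≤ κ := by linarith
  obtain ⟨κ₂, hκκ, hlow⟩ := hCHN X.toFuchs Q μ K κ hL hW hκ0
  have hκ₂ : 0 ≤ κ₂ := hκ0.trans hκκ
  set Θ : ℝ := 2 * κ₂ * (κ₂ + 1) + 1 with hΘ
  have hΘ0 : 0 < Θ := by positivity
  have hΘ1 : 2 * κ * (κ + 1) ≤ Θ := by
    rw [hΘ]
    nlinarith
  have hΘ2 : 2 * κ₂ * (κ₂ + 1) ≤ Θ := by
    rw [hΘ]
    linarith
  refine ⟨κ, κ₂, Θ, ?_⟩
  refine
    { hL := hL
      wk := hW
      κ0 := hκ0
      κκ := hκκ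
      Θ0 := hΘ0.le
      noj := ?_
      pos := ?_
      pos₂ := ?_
      low := hlow
      dich := hDICH X Q μ K κ κ₂ hL hW hκ0 hκκ hlow
      far := ?_
      aln := ?_ }
  · intro x s hs hx
    refine hNOJ X.toFuchs κ K hκ0 ?_ x s ?_ hx
    · nlinarith
    · rw [← hL]
      exact hW.step s hs
  · intro a ha x hx
    exact (hPOSG X.toFuchs κ Θ hκ0 hΘ0 hΘ1 a ha).1 x hx
  · intro a ha x hx
    exact (hPOSG X.toFuchs κ₂ Θ hκ₂ hΘ0 hΘ2 a ha).2 x hx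
  · obtain ⟨C₇, h⟩ := hFAR X.toFuchs R κ κ₂ hR1 hR2 hκ2 hκκ
    refine ⟨C₇, fun u hu hu2 => ?_⟩
    obtain ⟨y, hy, hd⟩ := h u hu hu2
    refine ⟨y, hy, ?_⟩
    unfold Geo.d
    rw [hL]
    exact hd
  · intro a ha
    obtain ⟨C, h⟩ := hALN X.toFuchs κ Θ hκ0 hΘ0.le a ha
    refine ⟨C, fun x hx y hy => ?_⟩
    rw [hL]
    exact h x hx y hy

end Pool.Agent.Helper12.GM
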