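import Pool.Agent.Helper12.GM.Stmts

/-! # Module EIG3 (MP_ab9fec_gt): the eigenvalue of `A₁ⁿ A₂ⁿ A₃ⁿ` -/

open scoped Topology
open Real Filter

namespace Pool.Agent.Helper12.GM

/-- `A` lies between `a v ⊗ w` and `b v ⊗ w`. -/
def eig3_S {ι : Type} (A : ι → ι → ℝ) (a b : ℝ) (v w : ι → ℝ) : Prop :=
  ∀ x y, a * (v x * w y) ≤ A x y ∧ A x y ≤ b * (v x * w y)

theorem eig3_summable {ι : Type} {v w : ι → ℝ} (hv : ∀ x, 0 < v x) (hb : ∃ C : ℝ, ∀ x, v x ≤ C)
    (hw : ∀ x, 0 ≤ w x) (hs : Summable w) : Summable fun x => w x * v x := by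
  obtain ⟨C, hC⟩ := hb
  refine Summable.of_nonneg_of_le (fun x => mul_nonneg (hw x) (hv x).le)
    (fun x => mul_le_mul_of_nonneg_left (hC x) (hw x)) (hs.mul_right C)

theorem eig3_mul {ι : Type} {A A' E : ι → ι → ℝ} {a b a' b' : ℝ} {v w v' w' : ι → ℝ}
    (h : eig3_S A a b v w) (h' : eig3_S A' a' b' v' w')
    (ha : 0 ≤ a) (hb : 0 ≤ b) (ha' : 0 ≤ a') (hb' : 0 ≤ b')
    (hv : ∀ x, 0 ≤ v x) (hw : ∀ x, 0 ≤ w x) (hv' : ∀ x, 0 ≤ v' x) (hw' : ∀ x, 0 ≤ w' x)
    (hs : Summable fun x => w x * v' x)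
    (hE : ∀ x z, HasSum (fun y => A x y * A' y z) (E x z)) :
    eig3_S E (a * a' * pr w v') (b * b' * pr w v') v w' := by
  intro x z
  have key : ∀ c c' : ℝ, HasSum (fun y => (c * (v x * w y)) * (c' * (v' y * w' z)))
      (c * c' * pr w v' * (v x * w' z)) := by
    intro c c'
    have h1 := hs.hasSum.mul_left (c * c' * (v x * w' z))
    have h2 : c * c' * pr w v' * (v x * w' z) = c * c' * (v x * w' z) * ∑' x, w x * v' x := by
      unfold pr
      ring
    rw [h2]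
    refine h1.congr_fun ?_ |> id
    intro y
    ring
  constructor
  · refine hasSum_le (fun y => ?_) (key a a') (hE x z)
    have h1 := (h x y).1
    have h2 := (h' y z).1
    have h3 : 0 ≤ a * (v x * w y) := mul_nonneg ha (mul_nonneg (hv x) (hw y))
    have h4 : 0 ≤ a' * (v' y * w' z) := mul_nonneg ha' (mul_nonneg (hv' y) (hw' z))
    exact mul_le_mul h1 h2 h4 (h3.trans h1)
  · refine hasSum_le (fun y => ?_) (hE x z) (key b b')
    have h1 := (h x y)
    have h2 := (h' y z)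
    have h3 : 0 ≤ A x y := (mul_nonneg ha (mul_nonneg (hv x) (hw y))).trans h1.1
    have h4 : 0 ≤ A' y z := (mul_nonneg ha' (mul_nonneg (hv' y) (hw' z))).trans h2.1
    exact mul_le_mul h1.2 h2.2 h4 (h3.trans h1.2)

theorem eig3_pr_pos {ι : Type} {v w : ι → ℝ} (hv : ∀ x, 0 < v x) (hw : ∀ x, 0 ≤ w x)
    (hs : Summable fun x => w x * v x) (hz : ∃ z, 0 < w z) : 0 < pr w v := by
  obtain ⟨z, hz⟩ := hz
  exact hs.tsum_pos (fun x => mul_nonneg (hw x) (hv x).le) z (mul_pos hz (hv z))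

theorem eig3_wpos {ι : Type} {A : ℕ → ι → ι → ℝ} {ρ : ℝ} {v w : ι → ℝ} (h : PFD A ρ v w) :
    ∃ z, 0 < w z := by
  by_contra hcon
  push_neg at hcon
  have h0 : ∀ x, w x = 0 := fun x => le_antisymm (hcon x) (h.wnn x)
  have := h.nrm
  simp [h0] at this

theorem eig3_sand {ι : Type} {A : ℕ → ι → ι → ℝ} {ρ : ℝ} {v w : ι → ℝ} (h : PFD A ρ v w) :
    ∃ e : ℕ → ℝ, Tendsto e atTop (𝓝 0) ∧ (∀ n, 0 ≤ e n) ∧
      ∀ n, 1 ≤ n → eig3_S (A n) ((1 - e n) * ρ ^ n) ((1 + e n) * ρ ^ n) v w := by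
  obtain ⟨C, θ, hC, h0, h1, hA⟩ := h.asy
  refine ⟨fun n => C * θ ^ n, ?_, fun n => by positivity, ?_⟩
  · have := (tendsto_pow_atTop_nhds_zero_of_lt_one h0 h1).const_mul C
    simpa using this
  · intro n hn x y
    have h2 := abs_le.1 (hA n hn x y)
    constructor
    · nlinarith [h2.1]
    · nlinarith [h2.2]

/-- powers -/
theorem eig3_pow {ι : Type} {B : ℕ → ι → ι → ℝ} {a b : ℝ} {v w : ι → ℝ}
    (ha : 0 ≤ a) (hb : 0 ≤ b) (hv : ∀ x, 0 < v x) (hw : ∀ x, 0 ≤ w x)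
    (hs : Summable fun x => w x * v x) (hp : 0 < pr w v)
    (h1 : eig3_S (B 1) a b v w)
    (hB : ∀ m, 1 ≤ m → ∀ x z, HasSum (fun y => B 1 x y * B m y z) (B (m + 1) x z)) :
    ∀ m, 1 ≤ m → eig3_S (B m) ((a * pr w v) ^ m / pr w v) ((b * pr w v) ^ m / pr w v) v w := by
  intro m hm
  induction m, hm using Nat.le_induction with
  | base =>
    rw [pow_one, pow_one, mul_div_cancel_right₀ _ hp.ne', mul_div_cancel_right₀ _ hp.ne']
    exact h1
  | succ m hm ih =>
    have h2 := eig3_mul h1 ih ha hb (by positivity) (by positivity) (fun x => (hv x).le) hw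
      (fun x => (hv x).le) hw hs (hB m hm)
    have e1 : ∀ c : ℝ, c * ((c * pr w v) ^ m / pr w v) * pr w v =
        (c * pr w v) ^ (m + 1) / pr w v := by
      intro c
      rw [pow_succ]
      field_simp
    rw [e1, e1] at h2
    exact h2

/-- comparison of the eigenvalue -/
theorem eig3_eig {ι : Type} {B : ℕ → ι → ι → ℝ} {a b r : ℝ} {v w v' w' : ι → ℝ}
    (ha : 0 < a) (hb : 0 < b) (hv : ∀ x, 0 < v x) (hw : ∀ x, 0 ≤ w x)
    (hs : Summable fun x => w x * v x) (hz : ∃ z, 0 < w z)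
    (h1 : eig3_S (B 1) a b v w)
    (hB : ∀ m, 1 ≤ m → ∀ x z, HasSum (fun y => B 1 x y * B m y z) (B (m + 1) x z))
    (hP : PFD B r v' w') : a * pr w v ≤ r ∧ r ≤ b * pr w v := by
  have hp : 0 < pr w v := eig3_pr_pos hv hw hs hz
  have hpow := eig3_pow ha.le hb.le hv hw hs hp h1 hB
  obtain ⟨e, he, he0, hE⟩ := eig3_sand hP
  have hr := hP.ρpos
  constructor
  · by_contra hcon
    push_neg at hcon
    obtain ⟨z, hz⟩ := hz
    have hap : 0 < a * pr w v := mul_pos ha hp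
    have hq0 : 0 ≤ r / (a * pr w v) := by positivity
    have hq1 : r / (a * pr w v) < 1 := by rw [div_lt_one hap]; exact hcon
    have hlim : Tendsto (fun m : ℕ => (r / (a * pr w v)) ^ m * ((1 + e m) * (v' z * w' z)))
        atTop (𝓝 (0 * ((1 + 0) * (v' z * w' z)))) :=
      (tendsto_pow_atTop_nhds_zero_of_lt_one hq0 hq1).mul ((he.const_add 1).mul_const _)
    rw [zero_mul] at hlim
    have hle : ∀ᶠ m : ℕ in atTop, v z * w z / pr w v ≤
        (r / (a * pr w v)) ^ m * ((1 + e m) * (v' z * w' z)) := by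
      filter_upwards [eventually_ge_atTop 1] with m hm
      have h2 := (hpow m hm z z).1.trans (hE m hm z z).2
      have h3 : 0 < (a * pr w v) ^ m := by positivity
      rw [div_pow]
      rw [div_mul_eq_mul_div, le_div_iff₀ h3]
      calc v z * w z / pr w v * (a * pr w v) ^ m = (a * pr w v) ^ m / pr w v * (v z * w z) := by
            ring
        _ ≤ (1 + e m) * r ^ m * (v' z * w' z) := h2
        _ = r ^ m * ((1 + e m) * (v' z * w' z)) := by ring
    have := ge_of_tendsto hlim hle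
    have h4 : 0 < v z * w z / pr w v := by
      have := hv z
      positivity
    linarith
  · by_contra hcon
    push_neg at hcon
    obtain ⟨z, hz'⟩ := eig3_wpos hP
    have hbp : 0 < b * pr w v := mul_pos hb hp
    have hq0 : 0 ≤ b * pr w v / r := by positivity
    have hq1 : b * pr w v / r < 1 := by rw [div_lt_one hr]; exact hcon
    have hlim : Tendsto (fun m : ℕ => (b * pr w v / r) ^ m * (v z * w z / pr w v))
        atTop (𝓝 (0 * (v z * w z / pr w v))) :=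
      (tendsto_pow_atTop_nhds_zero_of_lt_one hq0 hq1).mul_const _
    rw [zero_mul] at hlim
    have hlim2 : Tendsto (fun m : ℕ => (1 - e m) * (v' z * w' z)) atTop
        (𝓝 ((1 - 0) * (v' z * w' z))) := (he.const_sub 1).mul_const _
    rw [sub_zero, one_mul] at hlim2
    have hle : ∀ᶠ m : ℕ in atTop, (1 - e m) * (v' z * w' z) ≤
        (b * pr w v / r) ^ m * (v z * w z / pr w v) := by
      filter_upwards [eventually_ge_atTop 1] with m hm
      have h2 := (hE m hm z z).1.trans (hpow m hm z z).2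
      have h3 : 0 < r ^ m := by positivity
      rw [div_pow]
      rw [div_mul_eq_mul_div, le_div_iff₀ h3]
      calc (1 - e m) * (v' z * w' z) * r ^ m = (1 - e m) * r ^ m * (v' z * w' z) := by ring
        _ ≤ (b * pr w v) ^ m / pr w v * (v z * w z) := h2
        _ = (b * pr w v) ^ m * (v z * w z / pr w v) := by ring
    have := le_of_tendsto_of_tendsto hlim2 hlim hle
    have h4 : 0 < v' z * w' z := mul_pos (hP.vpos z) hz'
    linarith

theorem st_EIG3 : ST_EIG3 := by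
  intro ι A₁ A₂ A₃ ρ₁ ρ₂ ρ₃ v₁ w₁ v₂ w₂ v₃ w₃ h₁ h₂ h₃ r B E hE hB1 hB hP
  obtain ⟨e₁, he₁, hn₁, hs₁⟩ := eig3_sand h₁
  obtain ⟨e₂, he₂, hn₂, hs₂⟩ := eig3_sand h₂
  obtain ⟨e₃, he₃, hn₃, hs₃⟩ := eig3_sand h₃
  have s12 : Summable fun x => w₁ x * v₂ x := eig3_summable h₂.vpos h₂.vbd h₁.wnn h₁.wsum
  have s23 : Summable fun x => w₂ x * v₃ x := eig3_summable h₃.vpos h₃.vbd h₂.wnn h₂.wsum
  have s31 : Summable fun x => w₃ x * v₁ x := eig3_summable h₁.vpos h₁.vbd h₃.wnn h₃.wsum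
  have p12 : 0 < pr w₁ v₂ := eig3_pr_pos h₂.vpos h₁.wnn s12 (eig3_wpos h₁)
  have p23 : 0 < pr w₂ v₃ := eig3_pr_pos h₃.vpos h₂.wnn s23 (eig3_wpos h₂)
  have p31 : 0 < pr w₃ v₁ := eig3_pr_pos h₁.vpos h₃.wnn s31 (eig3_wpos h₃)
  have q₁ := h₁.ρpos
  have q₂ := h₂.ρpos
  have q₃ := h₃.ρpos
  set L : ℝ := pr w₁ v₂ * pr w₂ v₃ * pr w₃ v₁ with hL
  have hlow : Tendsto (fun n => (1 - e₁ n) * (1 - e₂ n) * (1 - e₃ n) * L) atTop (𝓝 L) := by
    have := ((((he₁.const_sub 1).mul (he₂.const_sub 1)).mul (he₃.const_sub 1)).mul_const L)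
    simpa using this
  have hupp : Tendsto (fun n => (1 + e₁ n) * (1 + e₂ n) * (1 + e₃ n) * L) atTop (𝓝 L) := by
    have := ((((he₁.const_add 1).mul (he₂.const_add 1)).mul (he₃.const_add 1)).mul_const L)
    simpa using this
  have hmain : ∀ᶠ n : ℕ in atTop,
      (1 - e₁ n) * (1 - e₂ n) * (1 - e₃ n) * L ≤ r n / (ρ₁ * ρ₂ * ρ₃) ^ n ∧
      r n / (ρ₁ * ρ₂ * ρ₃) ^ n ≤ (1 + e₁ n) * (1 + e₂ n) * (1 + e₃ n) * L := by
    filter_upwards [eventually_ge_atTop 1, he₁.eventually_lt_const one_pos,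
      he₂.eventually_lt_const one_pos, he₃.eventually_lt_const one_pos] with n hn f₁ f₂ f₃
    have a₁ : 0 < 1 - e₁ n := by linarith
    have a₂ : 0 < 1 - e₂ n := by linarith
    have a₃ : 0 < 1 - e₃ n := by linarith
    have b₁ : 0 < 1 + e₁ n := by linarith [hn₁ n]
    have b₂ : 0 < 1 + e₂ n := by linarith [hn₂ n]
    have b₃ : 0 < 1 + e₃ n := by linarith [hn₃ n]
    have m12 := eig3_mul (hs₁ n hn) (hs₂ n hn) (by positivity) (by positivity) (by positivity)
      (by positivity) (fun x => (h₁.vpos x).le) h₁.wnn (fun x => (h₂.vpos x).le) h₂.wnn s12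
      (hE n hn)
    have m123 := eig3_mul m12 (hs₃ n hn) (by positivity) (by positivity) (by positivity)
      (by positivity) (fun x => (h₁.vpos x).le) h₂.wnn (fun x => (h₃.vpos x).le) h₃.wnn s23
      (hB1 n hn)
    obtain ⟨v, w, hvw⟩ := hP n hn
    have hfin := eig3_eig (by positivity) (by positivity) h₁.vpos h₃.wnn s31 (eig3_wpos h₃) m123
      (hB n hn) hvw
    have hd : 0 < (ρ₁ * ρ₂ * ρ₃) ^ n := by positivity
    constructor
    · rw [le_div_iff₀ hd]
      refine le_trans (le_of_eq ?_) hfin.1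
      rw [hL, mul_pow, mul_pow]
      ring
    · rw [div_le_iff₀ hd]
      refine le_trans hfin.2 (le_of_eq ?_)
      rw [hL, mul_pow, mul_pow]
      ring
  exact tendsto_of_tendsto_of_tendsto_of_le_of_le' hlow hupp (hmain.mono fun n h => h.1)
    (hmain.mono fun n h => h.2)

end Pool.Agent.Helper12.GM
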